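import Pool.Agent.Helper717.LT.Defs

/-! Functions of the Sobolev space which are odd in one coordinate stay in it when they are
multiplied by the sign of this coordinate. -/

set_option autoImplicit false

open MeasureTheory Set Filter Topology Real

namespace Pool.Agent.R282.KO

open LTd

variable {d : ℕ}

/-- The reflection in the coordinate `k`. -/
def refl (k : Fin d) (x : Fin d → ℝ) : Fin d → ℝ := fun i => if i = k then -x i else x i

theorem refl_refl (k : Fin d) (x : Fin d → ℝ) : refl k (refl k x) = x := by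
  funext i
  unfold refl
  split_ifs <;> simp

theorem refl_same (k : Fin d) (x : Fin d → ℝ) : refl k x k = -x k := by
  unfold refl
  rw [if_pos rfl]

theorem refl_ne (k : Fin d) (x : Fin d → ℝ) {i : Fin d} (h : i ≠ k) : refl k x i = x i := by
  unfold refl
  rw [if_neg h]

theorem mp_refl (k : Fin d) : MeasurePreserving (refl k) volume volume := by
  have h : MeasurePreserving (fun (a : Fin d → ℝ) (i : Fin d) =>
      (if i = k then (fun t : ℝ => -t) else fun t => t) (a i)) volume volume := by
    refine volume_preserving_pi (f := fun i => if i = k then (fun t : ℝ => -t) else fun t => t)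
      fun i => ?_
    by_cases hi : i = k
    · simp only [if_pos hi]
      exact Measure.measurePreserving_neg volume
    · simp only [if_neg hi]
      exact MeasurePreserving.id volume
  convert h using 1
  funext x i
  unfold refl
  split_ifs <;> rfl

/-- The reflection as an equivalence. -/
def reflE (k : Fin d) : (Fin d → ℝ) ≃ᵐ (Fin d → ℝ) where
  toFun := refl k
  invFun := refl k
  left_inv := refl_refl k
  right_inv := refl_refl k
  measurable_toFun := (mp_refl k).measurable
  measurable_invFun := (mp_refl k).measurable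

theorem integral_refl (k : Fin d) (f : (Fin d → ℝ) → ℂ) : ∫ x, f (refl k x) = ∫ x, f x :=
  (mp_refl k).integral_comp (reflE k).measurableEmbedding f

/-- A smooth odd step. -/
noncomputable def S (t : ℝ) : ℝ := smoothTransition t - smoothTransition (-t)

theorem S_odd (t : ℝ) : S (-t) = -S t := by
  unfold S
  rw [neg_neg]
  ring

theorem S_contDiff : ContDiff ℝ (⊤ : ℕ∞) S := by
  unfold S
  exact smoothTransition.contDiff.sub (smoothTransition.contDiff.comp contDiff_neg)

theorem S_ge {t : ℝ} (h : 1 ≤ t) : S t = 1 := by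
  unfold S
  rw [smoothTransition.one_of_one_le h, smoothTransition.zero_of_nonpos (by linarith), sub_zero]

theorem S_le {t : ℝ} (h : t ≤ -1) : S t = -1 := by
  have := S_odd (-t)
  rw [neg_neg, S_ge (t := -t) (by linarith)] at this
  exact this

theorem S_abs (t : ℝ) : |S t| ≤ 1 := by
  unfold S
  have h1 := smoothTransition.nonneg t
  have h2 := smoothTransition.le_one t
  have h3 := smoothTransition.nonneg (-t)
  have h4 := smoothTransition.le_one (-t)
  rw [abs_le]
  constructor <;> linarith

theorem dS_even (t : ℝ) : deriv S (-t) = deriv S t := by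
  have h : S = fun t => -S (-t) := by
    funext t
    rw [S_odd, neg_neg]
  have h2 : deriv (fun t => -S (-t)) t = deriv S (-t) := by
    rw [deriv.fun_neg, deriv_comp_neg, neg_neg]
  rw [← h2, ← h]

theorem dS_zero {t : ℝ} (h : 1 < |t|) : deriv S t = 0 := by
  rcases lt_abs.1 h with h1 | h1
  · have : S =ᶠ[𝓝 t] fun _ => (1 : ℝ) := by
      filter_upwards [lt_mem_nhds h1] with s hs
      exact S_ge hs.le
    rw [this.deriv_eq]
    exact deriv_const _ _
  · have : S =ᶠ[𝓝 t] fun _ => (-1 : ℝ) := by
      filter_upwards [gt_mem_nhds (show t < -1 by linarith)] with s hs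
      exact S_le hs.le
    rw [this.deriv_eq]
    exact deriv_const _ _

theorem dS_cont : Continuous (deriv S) :=
  S_contDiff.continuous_deriv (by exact_mod_cast le_top)

theorem dS_bdd : ∃ M : ℝ, 0 ≤ M ∧ ∀ t, |deriv S t| ≤ M := by
  obtain ⟨M, hM⟩ := dS_cont.bounded_above_of_compact_support
    (HasCompactSupport.intro (K := Icc (-1) 1) isCompact_Icc fun t ht => dS_zero (by
      rw [mem_Icc, not_and_or] at ht
      rcases ht with h | h
      · exact lt_abs.2 (Or.inr (by linarith))
      · exact lt_abs.2 (Or.inl (by linarith))))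
  exact ⟨M, (norm_nonneg _).trans (hM 0), hM⟩

theorem S_lim (t : ℝ) : ∀ᶠ n : ℕ in atTop, S ((n + 1) * t) = Real.sign t := by
  rcases lt_trichotomy t 0 with h | h | h
  · obtain ⟨N, hN⟩ := exists_nat_gt (1 / -t)
    filter_upwards [eventually_ge_atTop N] with n hn
    rw [sign_of_neg h]
    apply S_le
    have h1 : (1 / -t) < n + 1 := by
      have : (N : ℝ) ≤ n := by exact_mod_cast hn
      linarith
    rw [div_lt_iff₀ (by linarith)] at h1
    linarith
  · filter_upwards with n
    rw [h, mul_zero, sign_zero]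
    unfold S
    simp
  · obtain ⟨N, hN⟩ := exists_nat_gt (1 / t)
    filter_upwards [eventually_ge_atTop N] with n hn
    rw [sign_of_pos h]
    apply S_ge
    have h1 : (1 / t) < n + 1 := by
      have : (N : ℝ) ≤ n := by exact_mod_cast hn
      linarith
    rw [div_lt_iff₀ h] at h1
    linarith

theorem sign_meas : Measurable Real.sign := by
  unfold Real.sign
  exact Measurable.ite measurableSet_Iio measurable_const
    (Measurable.ite measurableSet_Ioi measurable_const measurable_const)

theorem sign_abs (t : ℝ) : |Real.sign t| ≤ 1 := by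
  rcases Real.sign_apply_eq t with h | h | h <;> rw [h] <;> simp

theorem tendsto_S (h : (Fin d → ℝ) → ℂ) (hh : Integrable h) (k : Fin d) :
    Tendsto (fun n : ℕ => ∫ x, h x * ((S ((n + 1) * x k) : ℝ) : ℂ)) atTop
      (𝓝 (∫ x, h x * ((Real.sign (x k) : ℝ) : ℂ))) := by
  refine tendsto_integral_of_dominated_convergence (fun x => ‖h x‖) (fun n => ?_) hh.norm
    (fun n => Eventually.of_forall fun x => ?_) (Eventually.of_forall fun x => ?_)
  · refine hh.aestronglyMeasurable.mul (Continuous.aestronglyMeasurable ?_)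
    exact Complex.continuous_ofReal.comp (S_contDiff.continuous.comp (by fun_prop))
  · rw [norm_mul, Complex.norm_real, Real.norm_eq_abs]
    exact mul_le_of_le_one_right (norm_nonneg _) (S_abs _)
  · refine tendsto_const_nhds.congr' ?_
    filter_upwards [S_lim (x k)] with n hn
    rw [hn]

theorem refl_dist (k : Fin d) (x : Fin d → ℝ) : dist x (refl k x) ≤ 2 * |x k| := by
  rw [dist_pi_le_iff (by positivity)]
  intro i
  by_cases hi : i = k
  · rw [hi, refl_same, Real.dist_eq, sub_neg_eq_add, ← two_mul, abs_mul, abs_two]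
  · rw [refl_ne k x hi, dist_self]
    positivity

theorem tendsto_B (u : (Fin d → ℝ) → ℂ) (hu : MemLp u 2 volume) (φ : (Fin d → ℝ) → ℝ)
    (hφ : ContDiff ℝ (⊤ : ℕ∞) φ) (hc : HasCompactSupport φ) (k : Fin d)
    (hodd : ∀ᵐ x, u (refl k x) = -u x) :
    Tendsto (fun n : ℕ => ∫ x, u x * ((φ x * ((n + 1) * deriv S ((n + 1) * x k)) : ℝ) : ℂ)) atTop
      (𝓝 0) := by
  obtain ⟨M, hM0, hM⟩ := dS_bdd
  obtain ⟨C, hC⟩ := hφ.lipschitzWith_of_hasCompactSupport hc (by simp)
  set K : Set (Fin d → ℝ) := tsupport φ ∪ refl k ⁻¹' tsupport φ with hK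
  have hcont : Continuous (refl k : (Fin d → ℝ) → _) := by
    unfold refl
    refine continuous_pi fun i => ?_
    by_cases hi : i = k
    · simp only [hi, if_true]; fun_prop
    · simp only [hi, if_false]; fun_prop
  have hKc : IsCompact K := by
    refine IsCompact.union hc ?_
    have : refl k ⁻¹' tsupport φ = refl k '' tsupport φ := by
      ext x
      constructor
      · intro hx
        exact ⟨refl k x, hx, refl_refl k x⟩
      · rintro ⟨y, hy, rfl⟩
        show refl k (refl k y) ∈ tsupport φ
        rwa [refl_refl]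
    rw [this]
    exact IsCompact.image hc hcont
  set ψ : (Fin d → ℝ) → ℝ := fun x => φ x - φ (refl k x) with hψ
  have hψ0 : ∀ x, x ∉ K → ψ x = 0 := by
    intro x hx
    have h1 : φ x = 0 := image_eq_zero_of_notMem_tsupport fun h => hx (Or.inl h)
    have h2 : φ (refl k x) = 0 := image_eq_zero_of_notMem_tsupport fun h => hx (Or.inr h)
    rw [hψ]
    simp [h1, h2]
  have hψ1 : ∀ x, |ψ x| ≤ C * (2 * |x k|) := by
    intro x
    have h1 := hC.dist_le_mul x (refl k x)
    rw [Real.dist_eq] at h1
    exact h1.trans (mul_le_mul_of_nonneg_left (refl_dist k x) C.2)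
  set w : ℕ → (Fin d → ℝ) → ℝ := fun n x => (n + 1) * deriv S ((n + 1) * x k) with hw
  have hwc : ∀ n, Continuous (w n) := by
    intro n
    exact continuous_const.mul (dS_cont.comp (by fun_prop))
  have hwr : ∀ n x, w n (refl k x) = w n x := by
    intro n x
    simp only [hw]
    rw [refl_same, mul_neg, dS_even]
  have hφL : ∀ n, MemLp (fun x => ((φ x * w n x : ℝ) : ℂ)) 2 volume := by
    intro n
    refine (Complex.continuous_ofReal.comp (hφ.continuous.mul (hwc n))).memLp_of_hasCompactSupport ?_
    refine HasCompactSupport.comp_left (g := fun t : ℝ => (t : ℂ)) ?_ (by simp)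
    exact hc.mul_right
  have hFi : ∀ n, Integrable (fun x => u x * ((φ x * w n x : ℝ) : ℂ)) := fun n =>
    hu.integrable_mul (hφL n)
  -- symmetrise
  have hsym : ∀ n, ∫ x, u x * ((φ x * w n x : ℝ) : ℂ) =
      (1 / 2 : ℂ) * ∫ x, u x * ((ψ x * w n x : ℝ) : ℂ) := by
    intro n
    have h1 := integral_refl k (fun x => u x * ((φ x * w n x : ℝ) : ℂ))
    have h2 : ∫ x, u (refl k x) * ((φ (refl k x) * w n (refl k x) : ℝ) : ℂ) =
        ∫ x, -(u x * ((φ (refl k x) * w n x : ℝ) : ℂ)) := by
      refine integral_congr_ae ?_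
      filter_upwards [hodd] with x hx
      rw [hx, hwr]
      ring
    have h3 : Integrable (fun x => -(u x * ((φ (refl k x) * w n x : ℝ) : ℂ))) := by
      have h4 := (mp_refl k).integrable_comp_of_integrable (hFi n)
      refine h4.congr ?_
      filter_upwards [hodd] with x hx
      show u (refl k x) * ((φ (refl k x) * w n (refl k x) : ℝ) : ℂ) = _
      rw [hx, hwr]
      ring
    have h5 : ∫ x, u x * ((ψ x * w n x : ℝ) : ℂ) = (∫ x, u x * ((φ x * w n x : ℝ) : ℂ)) +
        ∫ x, -(u x * ((φ (refl k x) * w n x : ℝ) : ℂ)) := by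
      rw [← integral_add (hFi n) h3]
      congr 1
      funext x
      simp only [hψ]
      push_cast
      ring
    rw [h5, ← h2, h1]
    ring
  have hlim : Tendsto (fun n : ℕ => ∫ x, u x * ((ψ x * w n x : ℝ) : ℂ)) atTop
      (𝓝 (∫ _x : Fin d → ℝ, (0 : ℂ))) := by
    refine tendsto_integral_of_dominated_convergence
      (fun x => ‖u x‖ * K.indicator (fun _ => (2 * C * M : ℝ)) x) (fun n => ?_) ?_
      (fun n => Eventually.of_forall fun x => ?_) (Eventually.of_forall fun x => ?_)
    · refine hu.1.mul (Continuous.aestronglyMeasurable ?_)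
      exact Complex.continuous_ofReal.comp
        ((hφ.continuous.sub (hφ.continuous.comp hcont)).mul (hwc n))
    · refine MemLp.integrable_mul (p := 2) (q := 2) hu.norm ?_
      exact memLp_indicator_const 2 hKc.measurableSet _ (Or.inr hKc.measure_lt_top.ne)
    · rw [norm_mul, Complex.norm_real, Real.norm_eq_abs]
      refine mul_le_mul_of_nonneg_left ?_ (norm_nonneg _)
      by_cases hx : x ∈ K
      · rw [indicator_of_mem hx, abs_mul]
        simp only [hw]
        by_cases h1 : 1 < |((n : ℝ) + 1) * x k|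
        · rw [dS_zero h1]
          simp only [mul_zero, abs_zero]
          have := C.2
          positivity
        · push Not at h1
          rw [abs_mul] at h1
          rw [abs_mul]
          have h2 := hψ1 x
          have h3 := hM (((n : ℝ) + 1) * x k)
          have h4 : (0 : ℝ) ≤ |(n : ℝ) + 1| := abs_nonneg _
          have hC0 : (0 : ℝ) ≤ C := C.2
          calc |ψ x| * (|(n : ℝ) + 1| * |deriv S (((n : ℝ) + 1) * x k)|)
              ≤ (C * (2 * |x k|)) * (|(n : ℝ) + 1| * M) := by gcongr
            _ = 2 * C * M * (|(n : ℝ) + 1| * |x k|) := by ring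
            _ ≤ 2 * C * M * 1 := mul_le_mul_of_nonneg_left h1 (by positivity)
            _ = 2 * C * M := mul_one _
      · rw [indicator_of_notMem hx, hψ0 x hx]
        simp
    · refine tendsto_const_nhds.congr' ?_
      rcases eq_or_ne (x k) 0 with h | h
      · have hr : refl k x = x := by
          funext i
          by_cases hi : i = k
          · rw [hi, refl_same, h, neg_zero]
          · exact refl_ne k x hi
        filter_upwards with n
        simp only [hψ, hr, sub_self, zero_mul, Complex.ofReal_zero, mul_zero]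
      · obtain ⟨N, hN⟩ := exists_nat_gt (1 / |x k|)
        filter_upwards [eventually_ge_atTop N] with n hn
        have h1 : 1 < |((n : ℝ) + 1) * x k| := by
          rw [abs_mul, abs_of_nonneg (by positivity : (0 : ℝ) ≤ (n : ℝ) + 1)]
          have h2 : (1 / |x k|) < n + 1 := by
            have : (N : ℝ) ≤ n := by exact_mod_cast hn
            linarith
          rwa [div_lt_iff₀ (abs_pos.2 h)] at h2
        simp only [hw, dS_zero h1, mul_zero, Complex.ofReal_zero]
  rw [integral_zero] at hlim
  have := hlim.const_mul (1 / 2 : ℂ)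
  rw [mul_zero] at this
  exact this.congr fun n => (hsym n).symm

theorem sign_mul {u : (Fin d → ℝ) → ℂ} {g : Fin d → (Fin d → ℝ) → ℂ} (hu : WGradC u g)
    (k0 : Fin d) (hodd : ∀ᵐ x, u (refl k0 x) = -u x) :
    WGradC (fun x => ((Real.sign (x k0) : ℝ) : ℂ) * u x)
      (fun k x => ((Real.sign (x k0) : ℝ) : ℂ) * g k x) := by
  have hsm : AEStronglyMeasurable (fun x : Fin d → ℝ => ((Real.sign (x k0) : ℝ) : ℂ)) volume :=
    (Complex.measurable_ofReal.comp (sign_meas.comp (measurable_pi_apply k0))).aestronglyMeasurable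
  have hL : ∀ f : (Fin d → ℝ) → ℂ, MemLp f 2 volume →
      MemLp (fun x => ((Real.sign (x k0) : ℝ) : ℂ) * f x) 2 volume := by
    intro f hf
    refine hf.mono (hsm.mul hf.1) (Eventually.of_forall fun x => ?_)
    rw [norm_mul, Complex.norm_real, Real.norm_eq_abs]
    exact mul_le_of_le_one_left (norm_nonneg _) (sign_abs _)
  refine ⟨hL _ hu.f2, fun k => hL _ (hu.g2 k), fun k φ hφ hc => ?_⟩
  have hpc : Continuous (pd k φ) := by
    unfold pd
    exact (hφ.continuous_fderiv (by simp)).clm_apply continuous_const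
  have hps : HasCompactSupport (pd k φ) := by
    unfold pd
    exact (hc.fderiv ℝ).comp_left (g := fun L : (Fin d → ℝ) →L[ℝ] ℝ => L (Pi.single k 1)) (by simp)
  have hreal : ∀ f : (Fin d → ℝ) → ℝ, Continuous f → HasCompactSupport f →
      MemLp (fun x => ((f x : ℝ) : ℂ)) 2 volume := fun f hf hfc =>
    (Complex.continuous_ofReal.comp hf).memLp_of_hasCompactSupport
      (hfc.comp_left (g := fun t : ℝ => (t : ℂ)) (by simp))
  have hi1 : Integrable (fun x => u x * (pd k φ x : ℂ)) := hu.f2.integrable_mul (hreal _ hpc hps)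
  have hi2 : Integrable (fun x => g k x * (φ x : ℂ)) :=
    (hu.g2 k).integrable_mul (hreal _ hφ.continuous hc)
  -- the test functions
  have hSc : ∀ n : ℕ, ContDiff ℝ (⊤ : ℕ∞) (fun x : Fin d → ℝ => S (((n : ℝ) + 1) * x k0)) := by
    intro n
    exact S_contDiff.comp (contDiff_const.mul (contDiff_apply ℝ ℝ k0))
  have hpd : ∀ (n : ℕ) (x : Fin d → ℝ), pd k (fun x => φ x * S (((n : ℝ) + 1) * x k0)) x =
      pd k φ x * S (((n : ℝ) + 1) * x k0) +
        (if k0 = k then 1 else 0) * (φ x * (((n : ℝ) + 1) * deriv S (((n : ℝ) + 1) * x k0))) := by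
    intro n x
    have h1 : HasFDerivAt φ (fderiv ℝ φ x) x :=
      (hφ.differentiable (by simp) x).hasFDerivAt
    have h2 : HasDerivAt S (deriv S (((n : ℝ) + 1) * x k0)) (((n : ℝ) + 1) * x k0) :=
      (S_contDiff.differentiable (by simp) _).hasDerivAt
    have h3 : HasFDerivAt (fun x : Fin d → ℝ => ((n : ℝ) + 1) * x k0)
        (((n : ℝ) + 1) • (ContinuousLinearMap.proj k0 : (Fin d → ℝ) →L[ℝ] ℝ)) x :=
      ((ContinuousLinearMap.proj k0 : (Fin d → ℝ) →L[ℝ] ℝ).hasFDerivAt (x := x)).const_mul _
    have h4 := h2.comp_hasFDerivAt x h3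
    have h5 := h1.mul h4
    unfold pd
    have h6 : fderiv ℝ (fun x => φ x * S (((n : ℝ) + 1) * x k0)) x = _ := h5.fderiv
    rw [h6]
    simp only [add_apply, smul_apply,
      ContinuousLinearMap.proj_apply, smul_eq_mul, Pi.single_apply, Function.comp_apply]
    split_ifs <;> ring
  have hkey : ∀ n : ℕ, (∫ x, (u x * (pd k φ x : ℂ)) * ((S (((n : ℝ) + 1) * x k0) : ℝ) : ℂ)) +
      (if k0 = k then 1 else 0) *
        ∫ x, u x * ((φ x * (((n : ℝ) + 1) * deriv S (((n : ℝ) + 1) * x k0)) : ℝ) : ℂ) =
      -∫ x, (g k x * (φ x : ℂ)) * ((S (((n : ℝ) + 1) * x k0) : ℝ) : ℂ) := by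
    intro n
    have h1 := hu.weak k (fun x => φ x * S (((n : ℝ) + 1) * x k0)) (hφ.mul (hSc n)) hc.mul_right
    have h2 : ∫ x, g k x * ((φ x * S (((n : ℝ) + 1) * x k0) : ℝ) : ℂ) =
        ∫ x, (g k x * (φ x : ℂ)) * ((S (((n : ℝ) + 1) * x k0) : ℝ) : ℂ) := by
      congr 1
      funext x
      push_cast
      ring
    rw [h2] at h1
    rw [← h1]
    have hI1 : Integrable (fun x => (u x * (pd k φ x : ℂ)) *
        ((S (((n : ℝ) + 1) * x k0) : ℝ) : ℂ)) := by
      refine hi1.mul_bdd (c := 1) (Complex.continuous_ofReal.comp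
        (hSc n).continuous).aestronglyMeasurable (Eventually.of_forall fun x => ?_)
      rw [Complex.norm_real, Real.norm_eq_abs]
      exact S_abs _
    have hI2 : Integrable (fun x => u x *
        ((φ x * (((n : ℝ) + 1) * deriv S (((n : ℝ) + 1) * x k0)) : ℝ) : ℂ)) := by
      refine hu.f2.integrable_mul (hreal _ ?_ hc.mul_right)
      exact hφ.continuous.mul (continuous_const.mul (dS_cont.comp (by fun_prop)))
    rw [← integral_const_mul, ← integral_add hI1 (hI2.const_mul _)]
    congr 1
    funext x
    rw [hpd]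
    split_ifs <;> push_cast <;> ring
  have hT1 := tendsto_S _ hi1 k0
  have hT2 := tendsto_S _ hi2 k0
  have hT3 := tendsto_B u hu.f2 φ hφ hc k0 hodd
  have hT4 := hT1.add (hT3.const_mul (if k0 = k then 1 else 0 : ℂ))
  have hT5 := hT2.neg
  have := tendsto_nhds_unique (hT4.congr hkey) hT5
  rw [mul_zero, add_zero] at this
  have e1 : ∀ x, ((Real.sign (x k0) : ℝ) : ℂ) * u x * (pd k φ x : ℂ) =
      u x * (pd k φ x : ℂ) * ((Real.sign (x k0) : ℝ) : ℂ) := fun x => by ring
  have e2 : ∀ x, ((Real.sign (x k0) : ℝ) : ℂ) * g k x * (φ x : ℂ) =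
      g k x * (φ x : ℂ) * ((Real.sign (x k0) : ℝ) : ℂ) := fun x => by ring
  simp only [e1, e2]
  exact this

end Pool.Agent.R282.KO
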