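import Pool.Agent.Helper717.LT.P_final_thm

/-! The kinetic energy inequality of the starting library for systems whose Gram matrix is at most
the identity. -/

set_option autoImplicit false

open MeasureTheory Set Filter Topology Real
open scoped Matrix

namespace Pool.Agent.R282.KO

open LTd

theorem sub_thm (d : ℕ) (hd : 1 ≤ d) (N : ℕ) (u : Fin N → (Fin d → ℝ) → ℂ)
    (g : Fin N → Fin d → (Fin d → ℝ) → ℂ) (hu : ∀ i, WGradC (u i) (g i))
    (ho : ∀ a : Fin N → ℂ, ∫ x, ‖∑ i, a i * u i x‖ ^ 2 ≤ ∑ i, ‖a i‖ ^ 2) :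
    Integrable (fun x => (∑ i, ‖u i x‖ ^ 2) ^ (1 + 2 / (d:ℝ))) ∧
    (3 / 4 : ℝ) ^ (1 / (d:ℝ)) * Kcl d * ∫ x, (∑ i, ‖u i x‖ ^ 2) ^ (1 + 2 / (d:ℝ)) ≤
      ∑ i, ∑ k, ∫ x, ‖g i k x‖ ^ 2 := by
  obtain ⟨m, rfl⟩ : ∃ m, d = m + 1 := ⟨d - 1, by omega⟩
  have hsq : ∀ z : ℂ, ‖z‖ ^ 2 = z.re ^ 2 + z.im ^ 2 := by
    intro z
    rw [Complex.sq_norm, Complex.normSq_apply]; ring
  let F : Fin (N + N) → (Fin (m + 1) → ℝ) → ℝ :=
    Fin.append (fun i x => (u i x).re) (fun i x => (u i x).im)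
  let G : Fin (N + N) → Fin (m + 1) → (Fin (m + 1) → ℝ) → ℝ :=
    Fin.append (fun i k x => (g i k x).re) (fun i k x => (g i k x).im)
  have hFl : ∀ i, F (Fin.castAdd N i) = fun x => (u i x).re := fun i => Fin.append_left _ _ i
  have hFr : ∀ i, F (Fin.natAdd N i) = fun x => (u i x).im := fun i => Fin.append_right _ _ i
  have hGl : ∀ i, G (Fin.castAdd N i) = fun k x => (g i k x).re := fun i => Fin.append_left _ _ i
  have hGr : ∀ i, G (Fin.natAdd N i) = fun k x => (g i k x).im := fun i => Fin.append_right _ _ i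
  have hW : ∀ i, WGrad (F i) (G i) := by
    intro i
    refine Fin.addCases (fun i => ?_) (fun i => ?_) i
    · rw [hFl, hGl]
      exact (split_complex (hu i)).1
    · rw [hFr, hGr]
      exact (split_complex (hu i)).2
  have hG : ∀ v : Fin (N + N) → ℝ, ∫ x, (∑ i, v i * F i x) ^ 2 ≤ ∑ i, v i ^ 2 := by
    intro v
    set a : Fin N → ℂ := fun i => ⟨v (Fin.castAdd N i), -v (Fin.natAdd N i)⟩ with ha
    have h2 : ∀ x, ∑ i, v i * F i x = (∑ i, a i * u i x).re := by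
      intro x
      rw [Fin.sum_univ_add, Complex.re_sum, ← Finset.sum_add_distrib]
      refine Finset.sum_congr rfl fun i _ => ?_
      simp only [hFl, hFr, ha, Complex.mul_re]
      ring
    have h3 : ∑ i, v i ^ 2 = ∑ i : Fin N, ‖a i‖ ^ 2 := by
      rw [Fin.sum_univ_add, ← Finset.sum_add_distrib]
      refine Finset.sum_congr rfl fun i _ => ?_
      rw [hsq]
      simp only [ha]
      ring
    rw [h3]
    refine le_trans ?_ (ho a)
    have hL : MemLp (fun x => ∑ i, a i * u i x) 2 volume :=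
      memLp_finsetSum _ fun i _ => (hu i).f2.const_mul (a i)
    refine integral_mono_of_nonneg (Eventually.of_forall fun x => sq_nonneg _)
      (hL.integrable_norm_pow two_ne_zero) (Eventually.of_forall fun x => ?_)
    show (∑ i, v i * F i x) ^ 2 ≤ ‖∑ i, a i * u i x‖ ^ 2
    rw [h2, hsq]
    nlinarith [sq_nonneg (∑ i, a i * u i x).im]
  have hH := H_real m (N + N) F G hW hG
  have hFs : ∀ x, ∑ i, F i x ^ 2 = ∑ i, ‖u i x‖ ^ 2 := by
    intro x
    rw [Fin.sum_univ_add, ← Finset.sum_add_distrib]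
    simp only [hFl, hFr, hsq]
  have hGs : ∀ x, ∑ j, ∑ i, G i j x ^ 2 = ∑ i, ∑ j, ‖g i j x‖ ^ 2 := by
    intro x
    rw [Finset.sum_comm, Fin.sum_univ_add, ← Finset.sum_add_distrib]
    refine Finset.sum_congr rfl fun i _ => ?_
    rw [← Finset.sum_add_distrib]
    simp only [hGl, hGr, hsq]
  simp only [hFs, hGs, const_final, final_thm_pp] at hH
  refine ⟨hH.1, ?_⟩
  have hI : ∀ i k, Integrable (fun x => ‖g i k x‖ ^ 2) := by
    intro i k
    have := (hu i).g2 k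
    exact this.integrable_norm_pow two_ne_zero
  have hint : ∫ x, ∑ i, ∑ j, ‖g i j x‖ ^ 2 = ∑ i, ∑ k, ∫ x, ‖g i k x‖ ^ 2 := by
    rw [integral_finsetSum _ (fun i _ => integrable_finsetSum _ (fun k _ => hI i k))]
    refine Finset.sum_congr rfl fun i _ => ?_
    rw [integral_finsetSum _ (fun k _ => hI i k)]
  rw [hint] at hH
  have h5 := hH.2
  have h6 : ((m + 1 : ℕ) : ℝ) = (m : ℝ) + 1 := by push_cast; ring
  rw [h6] at h5 ⊢
  exact h5

end Pool.Agent.R282.KO
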