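import Pool.Agent.R282.KO.Odd
import Pool.Agent.R282.KO.Sub

/-! Localisation of the kinetic energy inequality; the final form for odd systems. -/

set_option autoImplicit false

open MeasureTheory Set Filter Topology Real

namespace Pool.Agent.R282.KO

open LTd

variable {d : ℕ}

theorem adm_empty (hd : 1 ≤ d) : Adm (∅ : Finset (Fin d)) ((3 / 4 : ℝ) ^ (1 / (d : ℝ)) * Kcl d) :=
  fun N u g hu hsub _ => sub_thm d hd N u g hu hsub

theorem adm (hd : 1 ≤ d) (I : Finset (Fin d)) :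
    Adm I ((3 / 4 * 4 ^ I.card : ℝ) ^ (1 / (d : ℝ)) * Kcl d) := by
  classical
  induction I using Finset.induction_on with
  | empty =>
    have := adm_empty hd
    rwa [Finset.card_empty, pow_zero, mul_one]
  | insert k I hk ih =>
    have h := step I k hk _ ih
    have e : (3 / 4 * 4 ^ (insert k I).card : ℝ) ^ (1 / (d : ℝ)) * Kcl d =
        2 ^ (2 / (d : ℝ)) * ((3 / 4 * 4 ^ I.card : ℝ) ^ (1 / (d : ℝ)) * Kcl d) := by
      rw [Finset.card_insert_of_notMem hk, pow_succ]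
      have h1 : (3 / 4 * (4 ^ I.card * 4) : ℝ) = 4 * (3 / 4 * 4 ^ I.card) := by ring
      have h2 : (4 : ℝ) ^ (1 / (d : ℝ)) = 2 ^ (2 / (d : ℝ)) := by
        rw [show (4 : ℝ) = 2 ^ (2 : ℝ) by norm_num, ← Real.rpow_mul (by norm_num)]
        congr 1
        ring
      rw [h1, Real.mul_rpow (by norm_num) (by positivity), h2]
      ring
    rw [e]
    exact h

theorem smul_wgrad {u : (Fin d → ℝ) → ℂ} {g : Fin d → (Fin d → ℝ) → ℂ} (hu : WGradC u g) (r : ℂ) :
    WGradC (fun x => r * u x) (fun k x => r * g k x) := by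
  refine ⟨hu.f2.const_mul r, fun k => (hu.g2 k).const_mul r, fun k φ hφ hc => ?_⟩
  have := hu.weak k φ hφ hc
  simp only [mul_assoc]
  rw [integral_const_mul, integral_const_mul, this]
  ring

theorem sub_of_ortho {N : ℕ} (u : Fin N → (Fin d → ℝ) → ℂ) (hu : ∀ i, MemLp (u i) 2 volume)
    (ho : ∀ i j, ∫ x, (starRingEnd ℂ) (u i x) * u j x = if i = j then 1 else 0) : SubGram u := by
  intro a
  have hI : ∀ i j, Integrable (fun x => (starRingEnd ℂ) (u i x) * u j x) := by
    intro i j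
    have h1 : MemLp (fun x => (starRingEnd ℂ) (u i x)) 2 volume := (hu i).star
    exact h1.integrable_mul (hu j)
  have h1 : ∀ x, ((‖∑ i, a i * u i x‖ ^ 2 : ℝ) : ℂ) =
      ∑ i, ∑ j, ((starRingEnd ℂ) (a i) * a j) * ((starRingEnd ℂ) (u i x) * u j x) := by
    intro x
    have h2 : ((‖∑ i, a i * u i x‖ ^ 2 : ℝ) : ℂ) =
        (starRingEnd ℂ) (∑ i, a i * u i x) * ∑ j, a j * u j x := by
      rw [← Complex.normSq_eq_norm_sq, Complex.normSq_eq_conj_mul_self]
    rw [h2, map_sum, Finset.sum_mul_sum]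
    refine Finset.sum_congr rfl fun i _ => Finset.sum_congr rfl fun j _ => ?_
    rw [map_mul]
    ring
  have h3 : ((∫ x, ‖∑ i, a i * u i x‖ ^ 2 : ℝ) : ℂ) = ((∑ i, ‖a i‖ ^ 2 : ℝ) : ℂ) := by
    have h4 : ((∫ x, ‖∑ i, a i * u i x‖ ^ 2 : ℝ) : ℂ) =
        ∫ x, ((‖∑ i, a i * u i x‖ ^ 2 : ℝ) : ℂ) := integral_complex_ofReal.symm
    rw [h4]
    simp only [h1]
    rw [integral_finsetSum _ fun i _ => integrable_finsetSum _ fun j _ => (hI i j).const_mul _]
    push_cast
    refine Finset.sum_congr rfl fun i _ => ?_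
    rw [integral_finsetSum _ fun j _ => (hI i j).const_mul _]
    simp only [integral_const_mul, ho, mul_ite, mul_one, mul_zero, Finset.sum_ite_eq,
      Finset.mem_univ, if_true]
    rw [← Complex.normSq_eq_conj_mul_self, Complex.normSq_eq_norm_sq]
    push_cast
    rfl
  exact le_of_eq (by exact_mod_cast h3)

theorem loc (hd : 1 ≤ d) {N m : ℕ} (u : Fin N → (Fin d → ℝ) → ℂ)
    (g : Fin N → Fin d → (Fin d → ℝ) → ℂ) (hu : ∀ i, WGradC (u i) (g i))
    (Ω : Fin m → Set (Fin d → ℝ)) (hΩ : ∀ j, MeasurableSet (Ω j)) (hpart : ∀ x, ∃! j, x ∈ Ω j)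
    (hcut : ∀ j i, WGradC ((Ω j).indicator (u i)) (fun k => (Ω j).indicator (g i k)))
    (c : ℝ) (hc : 0 < c)
    (hgram : ∀ j (a : Fin N → ℂ), ∫ x in Ω j, ‖∑ i, a i * u i x‖ ^ 2 ≤ c * ∑ i, ‖a i‖ ^ 2) :
    Integrable (fun x => rho u x ^ (1 + 2 / (d : ℝ))) ∧
      c ^ (-(2 / (d : ℝ))) * ((3 / 4 : ℝ) ^ (1 / (d : ℝ)) * Kcl d) *
        ∫ x, rho u x ^ (1 + 2 / (d : ℝ)) ≤ kin g := by
  classical
  have hdR : (0 : ℝ) < d := by exact_mod_cast hd
  set p : ℝ := 1 + 2 / (d : ℝ) with hp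
  have hp0 : 0 < p := by rw [hp]; positivity
  set K : ℝ := (3 / 4 : ℝ) ^ (1 / (d : ℝ)) * Kcl d with hK
  set r : ℝ := √(c⁻¹) with hr
  have hci : 0 < c⁻¹ := inv_pos.2 hc
  have hr2 : r ^ 2 = c⁻¹ := Real.sq_sqrt hci.le
  have hind : ∀ (j : Fin m) (f : (Fin d → ℝ) → ℂ) (x : Fin d → ℝ),
      ‖(r : ℂ) * (Ω j).indicator f x‖ ^ 2 = c⁻¹ * (Ω j).indicator (fun x => ‖f x‖ ^ 2) x := by
    intro j f x
    rw [norm_mul, Complex.norm_real, Real.norm_eq_abs, mul_pow, sq_abs, hr2]
    by_cases hx : x ∈ Ω j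
    · rw [indicator_of_mem hx, indicator_of_mem hx]
    · rw [indicator_of_notMem hx, indicator_of_notMem hx]
      simp
  have main : ∀ j, Integrable ((Ω j).indicator (fun x => rho u x ^ p)) ∧
      K * (c⁻¹ ^ p * ∫ x, (Ω j).indicator (fun x => rho u x ^ p) x) ≤
        c⁻¹ * ∑ i, ∑ k, ∫ x, (Ω j).indicator (fun x => ‖g i k x‖ ^ 2) x := by
    intro j
    have h1 := sub_thm d hd N (fun i x => (r : ℂ) * (Ω j).indicator (u i) x)
      (fun i k x => (r : ℂ) * (Ω j).indicator (g i k) x) (fun i => smul_wgrad (hcut j i) _) ?_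
    · simp only [hind, integral_const_mul, ← Finset.mul_sum] at h1
      have e1 : ∀ x, (c⁻¹ * ∑ i, (Ω j).indicator (fun x => ‖u i x‖ ^ 2) x) ^ (1 + 2 / (d : ℝ)) =
          c⁻¹ ^ p * (Ω j).indicator (fun x => rho u x ^ p) x := by
        intro x
        have h0 : 0 ≤ ∑ i, (Ω j).indicator (fun x => ‖u i x‖ ^ 2) x :=
          Finset.sum_nonneg fun i _ => indicator_nonneg (fun _ _ => by positivity) x
        rw [← hp, Real.mul_rpow hci.le h0]
        congr 1
        by_cases hx : x ∈ Ω j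
        · simp only [indicator_of_mem hx]
          rfl
        · simp only [indicator_of_notMem hx, Finset.sum_const_zero]
          exact Real.zero_rpow hp0.ne'
      simp only [e1, integral_const_mul] at h1
      refine ⟨?_, h1.2⟩
      have h2 := h1.1.const_mul (c⁻¹ ^ p : ℝ)⁻¹
      refine h2.congr (Eventually.of_forall fun x => ?_)
      show (c⁻¹ ^ p : ℝ)⁻¹ * (c⁻¹ ^ p * (Ω j).indicator (fun x => rho u x ^ p) x) = _
      rw [← mul_assoc, inv_mul_cancel₀ (Real.rpow_pos_of_pos hci p).ne', one_mul]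
    · intro a
      have h2 : ∀ x, ‖∑ i, a i * ((r : ℂ) * (Ω j).indicator (u i) x)‖ ^ 2 =
          c⁻¹ * (Ω j).indicator (fun x => ‖∑ i, a i * u i x‖ ^ 2) x := by
        intro x
        rw [← hind j (fun x => ∑ i, a i * u i x) x]
        congr 2
        by_cases hx : x ∈ Ω j
        · simp only [indicator_of_mem hx, Finset.mul_sum]
          exact Finset.sum_congr rfl fun i _ => by ring
        · simp only [indicator_of_notMem hx, mul_zero, Finset.sum_const_zero]
      simp only [h2, integral_const_mul]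
      rw [integral_indicator (hΩ j)]
      have h3 := mul_le_mul_of_nonneg_left (hgram j a) hci.le
      rwa [← mul_assoc, inv_mul_cancel₀ hc.ne', one_mul] at h3
  -- sum over the pieces
  have hone : ∀ (f : (Fin d → ℝ) → ℝ) (x : Fin d → ℝ), ∑ j, (Ω j).indicator f x = f x := by
    intro f x
    obtain ⟨j, hj, hj'⟩ := hpart x
    rw [Finset.sum_eq_single j]
    · exact indicator_of_mem hj f
    · intro i _ hi
      exact indicator_of_notMem (fun h => hi (hj' i h)) f
    · intro h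
      exact absurd (Finset.mem_univ j) h
  have hi : Integrable (fun x => rho u x ^ p) := by
    refine (integrable_finsetSum Finset.univ fun j _ => (main j).1).congr
      (Eventually.of_forall fun x => ?_)
    exact hone (fun x => rho u x ^ p) x
  refine ⟨hi, ?_⟩
  have hI : ∑ j, ∫ x, (Ω j).indicator (fun x => rho u x ^ p) x = ∫ x, rho u x ^ p := by
    rw [← integral_finsetSum _ fun j _ => (main j).1]
    congr 1
    funext x
    exact hone _ x
  have hT : ∑ j, ∑ i, ∑ k, ∫ x, (Ω j).indicator (fun x => ‖g i k x‖ ^ 2) x = kin g := by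
    unfold kin
    rw [Finset.sum_comm]
    refine Finset.sum_congr rfl fun i _ => ?_
    rw [Finset.sum_comm]
    refine Finset.sum_congr rfl fun k _ => ?_
    have hgi : Integrable (fun x => ‖g i k x‖ ^ 2) := ((hu i).g2 k).integrable_norm_pow two_ne_zero
    rw [← integral_finsetSum _ fun j _ => hgi.indicator (hΩ j)]
    congr 1
    funext x
    exact hone _ x
  have hsum := Finset.sum_le_sum fun j (_ : j ∈ Finset.univ) => (main j).2
  rw [← Finset.mul_sum, ← Finset.mul_sum, ← Finset.mul_sum, hI, hT] at hsum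
  have e : (c⁻¹ : ℝ) ^ p = c⁻¹ * c ^ (-(2 / (d : ℝ))) := by
    rw [hp, Real.rpow_add hci, Real.rpow_one, Real.inv_rpow hc.le, Real.rpow_neg hc.le]
  rw [e] at hsum
  have h5 : c⁻¹ * (c ^ (-(2 / (d : ℝ))) * K * ∫ x, rho u x ^ p) ≤ c⁻¹ * kin g := by
    calc c⁻¹ * (c ^ (-(2 / (d : ℝ))) * K * ∫ x, rho u x ^ p)
        = K * (c⁻¹ * c ^ (-(2 / (d : ℝ))) * ∫ x, rho u x ^ p) := by ring
      _ ≤ _ := hsum
  exact le_of_mul_le_mul_left h5 hci

end Pool.Agent.R282.KO
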